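import Pool.Agent.W71.NN.Split

/-! Positive self-intersection. -/

set_option autoImplicit false

namespace Pool.Agent.W71.NN

open Finset

/-- many conditions for the largest multiplicity: `9 ∑ w ^ 2 < (∑ w) ^ 2` -/
theorem nine_lt {n K : ℕ} {w : Fin n → ℕ} (hK : 1 ≤ K) (hw : ∀ i, w i ≤ K)
    (h : 9 * K ^ 2 < ∑ i, (w i + 1).choose 2) : 9 * ∑ i, w i ^ 2 < (∑ i, w i) ^ 2 := by
  have h1 : ∑ i, (w i + 1).choose 2 ≤ ∑ i, w i ^ 2 := by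
    refine sum_le_sum fun i _ => ?_
    have h2 := two_choose (w i)
    rcases Nat.eq_zero_or_pos (w i) with h3 | h3
    · rw [h3]
      decide
    · have h4 : w i * (w i + 1) ≤ 2 * w i ^ 2 := by
        calc w i * (w i + 1) ≤ w i * (2 * w i) := Nat.mul_le_mul_left _ (by omega)
          _ = 2 * w i ^ 2 := by ring
      omega
  have h2 : ∑ i, w i ^ 2 ≤ K * ∑ i, w i := by
    rw [mul_sum]
    refine sum_le_sum fun i _ => ?_
    rw [sq]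
    exact Nat.mul_le_mul_right _ (hw i)
  obtain ⟨Q, hQ⟩ : ∃ Q, Q = ∑ i, w i ^ 2 := ⟨_, rfl⟩
  obtain ⟨A, hA⟩ : ∃ A, A = ∑ i, w i := ⟨_, rfl⟩
  rw [← hQ] at h1 h2 ⊢
  rw [← hA] at h2 ⊢
  have h3 : 9 * K ^ 2 < Q := by omega
  have h4 : Q * Q ≤ K ^ 2 * A ^ 2 := by
    calc Q * Q ≤ (K * A) * (K * A) := Nat.mul_le_mul h2 h2
      _ = K ^ 2 * A ^ 2 := by ring
  have h5 : 0 < Q := by omega
  have h6 : K ^ 2 * (9 * Q) < K ^ 2 * A ^ 2 := by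
    calc K ^ 2 * (9 * Q) = (9 * K ^ 2) * Q := by ring
      _ < Q * Q := Nat.mul_lt_mul_of_pos_right h3 h5
      _ ≤ _ := h4
  exact Nat.lt_of_mul_lt_mul_left h6

/-- the self-intersection of the curves of a class without speciality -/
theorem self_pos {n d : ℕ} {w : Fin n → ℕ} (h9 : 9 * ∑ i, w i ^ 2 < (∑ i, w i) ^ 2)
    (h : ∑ i, (w i + 1).choose 2 < (d + 2).choose 2) :
    (∑ i, w i : ℤ) - 3 * d ≤ (d : ℤ) ^ 2 - ∑ i, (w i : ℤ) ^ 2 ∧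
      0 < (d : ℤ) ^ 2 - ∑ i, (w i : ℤ) ^ 2 := by
  have h1 : 2 * (d + 2).choose 2 = (d + 1) * (d + 2) := two_choose (d + 1)
  have h2 : 2 * ∑ i, (w i + 1).choose 2 = ∑ i, w i ^ 2 + ∑ i, w i := by
    rw [mul_sum, ← sum_add_distrib]
    refine sum_congr rfl fun i _ => ?_
    rw [two_choose]
    ring
  obtain ⟨Q, hQ⟩ : ∃ Q, Q = ∑ i, w i ^ 2 := ⟨_, rfl⟩
  obtain ⟨A, hA⟩ : ∃ A, A = ∑ i, w i := ⟨_, rfl⟩
  have e1 : (∑ i, (w i : ℤ) ^ 2) = (Q : ℤ) := by rw [hQ]; push_cast; rfl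
  have e2 : (∑ i, (w i : ℤ)) = (A : ℤ) := by rw [hA]; push_cast; rfl
  rw [e1, e2]
  rw [← hQ, ← hA] at h2
  rw [← hQ, ← hA] at h9
  have h3 : (d + 1) * (d + 2) = d * d + 3 * d + 2 := by ring
  have h4 : Q + A ≤ d * d + 3 * d := by omega
  have h4' : (Q : ℤ) + A ≤ (d : ℤ) * d + 3 * d := by exact_mod_cast h4
  have h9' : 9 * (Q : ℤ) < (A : ℤ) ^ 2 := by exact_mod_cast h9
  have h5 : (A : ℤ) - 3 * d ≤ (d : ℤ) ^ 2 - Q := by nlinarith
  refine ⟨h5, ?_⟩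
  by_contra hcon
  push Not at hcon
  have h6 : (A : ℤ) ≤ 3 * d := by linarith
  have h7 : (A : ℤ) ^ 2 ≤ (3 * d) ^ 2 := pow_le_pow_left₀ (Int.natCast_nonneg A) h6 2
  nlinarith

/-- a multiplicity is at most `K` if the number of conditions of its group is at most that of `K` -/
theorem le_of_co {b K c : ℕ} (h1 : (b + 1).choose 2 ≤ c) (h2 : c ≤ (K + 1).choose 2) : b ≤ K := by
  by_contra hcon
  have := choose_lt' (show K < b by omega)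
  omega

end Pool.Agent.W71.NN
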