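import Pool.Agent.W71.NN.Near
import Pool.Agent.TH941.NU.Out

/-! The chain of the near-uniform vectors: from the degrees next to the critical one to all degrees. -/

namespace Pool.Agent.W71.NN

open Finset Pool.Agent.TH176.Nag Pool.Agent.TH603.Sur Pool.Agent.TH763.DB Module Pool.Agent.TH641.UM
open Pool.Agent.TH2.NU Pool.Agent.TH760.EN

/-- the near-uniform vector of sum `W` -/
def V (n W : ℕ) (i : Fin n) : ℕ := (W + i) / n

theorem V_val {n : ℕ} (hn : 0 < n) (W : ℕ) (i : Fin n) : V n W i = W / n ∨ V n W i = W / n + 1 := by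
  unfold V
  have h1 : W / n ≤ (W + i) / n := Nat.div_le_div_right (Nat.le_add_right _ _)
  have h2 : (W + i) / n ≤ (W + n) / n := Nat.div_le_div_right (by have := i.2; omega)
  rw [Nat.add_div_right _ hn] at h2
  omega

theorem V_sum {n : ℕ} (hn : 0 < n) (W : ℕ) : ∑ i, V n W i = W := by
  unfold V
  rw [Fin.sum_univ_eq_sum_range (fun i => (W + i) / n) n]
  induction W with
  | zero =>
    refine Finset.sum_eq_zero fun i hi => ?_
    rw [Finset.mem_range] at hi
    rw [zero_add]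
    exact Nat.div_eq_of_lt hi
  | succ W ih =>
    have h1 := Finset.sum_range_succ (fun i => (W + i) / n) n
    have h2 := Finset.sum_range_succ' (fun i => (W + i) / n) n
    simp only [add_zero] at h2
    rw [Nat.add_div_right _ hn, ih] at h1
    have h3 : ∀ i, (W + (i + 1)) / n = (W + 1 + i) / n := fun i => by
      congr 1
      omega
    simp only [h3] at h2
    omega

theorem V_mono {n W W' : ℕ} (h : W ≤ W') (i : Fin n) : V n W i ≤ V n W' i := by
  unfold V
  exact Nat.div_le_div_right (by omega)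

/-- the number of conditions of a vector of numbers `μ`, `μ + 1` -/
theorem two_cond {n μ : ℕ} {w : Fin n → ℕ} (hw : ∀ i, w i = μ ∨ w i = μ + 1) :
    2 * (cond w : ℤ) = (μ + 1) * (2 * ((∑ i, w i : ℕ) : ℤ) - n * μ) := by
  unfold Pool.Agent.TH603.Sur.cond
  push_cast
  rw [Finset.mul_sum]
  have h : ∀ i ∈ (univ : Finset (Fin n)), 2 * (((w i + 1).choose 2 : ℕ) : ℤ) =
      (μ + 1) * (2 * (w i : ℤ) - μ) := by
    intro i _
    have h1 := two_choose (w i)
    have h2 : (2 : ℤ) * (((w i + 1).choose 2 : ℕ) : ℤ) = (w i : ℤ) * (w i + 1) := by exact_mod_cast h1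
    rw [h2]
    rcases hw i with h | h <;> rw [h] <;> push_cast <;> ring
  rw [Finset.sum_congr rfl h, ← Finset.mul_sum, Finset.sum_sub_distrib, ← Finset.mul_sum]
  simp

/-- the deviation of the degree -/
noncomputable def dev (n W d : ℕ) : ℝ := √(n : ℝ) * (2 * d + 3) - (n + 2 * (W : ℝ))

theorem dev_id {n W d μ : ℕ} {w : Fin n → ℕ} (hw : ∀ i, w i = μ ∨ w i = μ + 1)
    (hW : ∑ i, w i = W) :
    dev n W d * (dev n W d + 2 * (n + 2 * (W : ℝ))) =
      8 * n * (((d + 2).choose 2 : ℕ) - (cond w : ℝ)) + n - (2 * W - n * (2 * μ + 1)) ^ 2 := by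
  have h1 := two_cond hw
  rw [hW] at h1
  have h2 : 2 * (cond w : ℝ) = (μ + 1) * (2 * (W : ℝ) - n * μ) := by exact_mod_cast h1
  have h3 := two_choose' d
  have h4 : 2 * (((d + 2).choose 2 : ℕ) : ℝ) = (d + 1) * (d + 2) := by exact_mod_cast h3
  have hss : √(n : ℝ) * √(n : ℝ) = n := Real.mul_self_sqrt (Nat.cast_nonneg n)
  have e1 : 8 * n * ((((d + 2).choose 2 : ℕ) : ℝ) - (cond w : ℝ)) =
      4 * n * (2 * (((d + 2).choose 2 : ℕ) : ℝ)) - 4 * n * (2 * (cond w : ℝ)) := by ring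
  rw [e1, h4, h2]
  unfold dev
  have e2 : (√(n : ℝ) * (2 * d + 3) - (n + 2 * (W : ℝ))) *
      (√(n : ℝ) * (2 * d + 3) - (n + 2 * (W : ℝ)) + 2 * (n + 2 * (W : ℝ))) =
      √(n : ℝ) * √(n : ℝ) * (2 * d + 3) ^ 2 - (n + 2 * (W : ℝ)) ^ 2 := by ring
  rw [e2, hss]
  ring

theorem dev_le {n W d μ : ℕ} {w : Fin n → ℕ} (hw : ∀ i, w i = μ ∨ w i = μ + 1)
    (hW : ∑ i, w i = W) (hn : 0 < n) (hμ : 3 ≤ μ) (h : (d + 2).choose 2 ≤ cond w) :
    dev n W d ≤ 1 / 10 := by
  have hid := dev_id (d := d) hw hW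
  have hnR : (0 : ℝ) < n := by exact_mod_cast hn
  have h1 : ((((d + 2).choose 2 : ℕ) : ℝ)) ≤ (cond w : ℝ) := by exact_mod_cast h
  have h2 : 8 * n * ((((d + 2).choose 2 : ℕ) : ℝ) - (cond w : ℝ)) ≤ 0 :=
    mul_nonpos_of_nonneg_of_nonpos (by positivity) (by linarith)
  have h3 := sq_nonneg (2 * (W : ℝ) - n * (2 * μ + 1))
  have hlow : n * μ ≤ W := by
    rw [← hW]
    have h1 : ∑ _i : Fin n, μ ≤ ∑ i, w i := sum_le_sum fun i _ => by
      rcases hw i with h | h <;> omega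
    simpa using h1
  have hWR : (n : ℝ) * μ ≤ W := by exact_mod_cast hlow
  have hμR : (3 : ℝ) ≤ μ := by exact_mod_cast hμ
  have hW3 : (n : ℝ) * 3 ≤ W := (mul_le_mul_of_nonneg_left hμR hnR.le).trans hWR
  by_contra hcon
  push Not at hcon
  have h4 : 1 / 10 * (2 * (n + 2 * (W : ℝ))) ≤ dev n W d * (dev n W d + 2 * (n + 2 * (W : ℝ))) := by
    have h5 : 0 ≤ dev n W d * dev n W d := by nlinarith
    have h6 : 1 / 10 * (2 * (n + 2 * (W : ℝ))) ≤ dev n W d * (2 * (n + 2 * (W : ℝ))) :=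
      mul_le_mul_of_nonneg_right hcon.le (by positivity)
    linarith
  linarith

theorem le_dev {n W d μ : ℕ} {w : Fin n → ℕ} (hw : ∀ i, w i = μ ∨ w i = μ + 1)
    (hW : ∑ i, w i = W) (hn : 0 < n) (hμ : 5 * (n : ℝ) ≤ 6 * (2 * μ + 1))
    (h : cond w ≤ (d + 2).choose 2) : -(3 / 5) ≤ dev n W d := by
  have hid := dev_id (d := d) hw hW
  have hnR : (1 : ℝ) ≤ n := by exact_mod_cast hn
  have h1 : (cond w : ℝ) ≤ ((((d + 2).choose 2 : ℕ) : ℝ)) := by exact_mod_cast h
  have h2 : 0 ≤ 8 * n * ((((d + 2).choose 2 : ℕ) : ℝ) - (cond w : ℝ)) :=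
    mul_nonneg (by positivity) (by linarith)
  have hlow : n * μ ≤ W := by
    rw [← hW]
    have h1 : ∑ _i : Fin n, μ ≤ ∑ i, w i := sum_le_sum fun i _ => by
      rcases hw i with h | h <;> omega
    simpa using h1
  have hup : W ≤ n * μ + n := by
    rw [← hW]
    have h1 : ∑ i, w i ≤ ∑ _i : Fin n, (μ + 1) := sum_le_sum fun i _ => by
      rcases hw i with h | h <;> omega
    simp only [sum_const, card_univ, Fintype.card_fin, smul_eq_mul] at h1
    linarith
  have hWR : (n : ℝ) * μ ≤ W := by exact_mod_cast hlow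
  have hWR2 : (W : ℝ) ≤ n * μ + n := by exact_mod_cast hup
  have h3 : (2 * (W : ℝ) - n * (2 * μ + 1)) ^ 2 ≤ n ^ 2 := sq_le_sq' (by linarith) (by linarith)
  have hQ : (n : ℝ) * (5 * n) ≤ 6 * (n + 2 * (W : ℝ)) := by
    have h5 : (n : ℝ) * (5 * n) ≤ n * (6 * (2 * μ + 1)) := mul_le_mul_of_nonneg_left hμ (by linarith)
    linarith
  have hT0 : 0 ≤ dev n W d + (n + 2 * (W : ℝ)) := by
    unfold dev
    have : 0 ≤ √(n : ℝ) * (2 * d + 3) := by positivity
    linarith
  by_contra hcon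
  push Not at hcon
  obtain ⟨T, hT⟩ : ∃ T, T = dev n W d := ⟨_, rfl⟩
  obtain ⟨Q, hQd⟩ : ∃ Q, Q = n + 2 * (W : ℝ) := ⟨_, rfl⟩
  rw [← hT, ← hQd] at hid hT0
  rw [← hQd] at hQ
  rw [← hT] at hcon
  have hQ0 : 3 / 5 ≤ Q := by linarith
  have h6 : T * (T + 2 * Q) ≤ -(3 / 5) * (2 * Q - 3 / 5) := by nlinarith
  nlinarith

/-- the downward induction -/
theorem Emp_chain {n a c σ t ν : ℕ} (D : Dn a c n σ t) (hB : 77 * a ≤ 20 * (2 * ν + 1))
    (hν : 5 * (n : ℝ) ≤ 6 * (2 * ν + 1)) (hν3 : 3 ≤ ν) (d : ℕ) :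
    ∀ k : ℕ, -(2 * (k : ℝ)) ≤ dev n (n * ν + k) d →
      (d + 2).choose 2 ≤ cond (V n (n * ν + k)) → Emp (V n (n * ν + k)) (TZ d) := by
  have hn : 0 < n := by have := D.hn; have := D.ha; omega
  have hval : ∀ k : ℕ, ∃ μ, ν ≤ μ ∧ ∀ i, V n (n * ν + k) i = μ ∨ V n (n * ν + k) i = μ + 1 := by
    intro k
    refine ⟨(n * ν + k) / n, ?_, V_val hn _⟩
    rw [Nat.le_div_iff_mul_le hn, mul_comm]
    omega
  have hsg : ∀ k : ℕ, |dev n (n * ν + k) d| ≤ 13 / 5 →
      (d + 2).choose 2 ≤ cond (V n (n * ν + k)) → Emp (V n (n * ν + k)) (TZ d) := by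
    intro k hk
    obtain ⟨μ, hμ, hv⟩ := hval k
    refine (sgn_near D hv (by omega) ?_).1
    rw [V_sum hn]
    exact hk
  intro k
  induction k with
  | zero =>
    intro h1 h2
    obtain ⟨μ, hμ, hv⟩ := hval 0
    have h3 := dev_le hv (V_sum hn _) hn (by omega) h2
    refine hsg 0 ?_ h2
    rw [abs_le]
    push_cast at h1
    constructor <;> linarith
  | succ k ih =>
    intro h1 h2
    obtain ⟨μ, hμ, hv⟩ := hval (k + 1)
    have h3 := dev_le hv (V_sum hn _) hn (by omega) h2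
    rcases le_or_gt (-(13 / 5)) (dev n (n * ν + (k + 1)) d) with h4 | h4
    · refine hsg (k + 1) ?_ h2
      rw [abs_le]
      constructor <;> linarith
    · have e : dev n (n * ν + k) d = dev n (n * ν + (k + 1)) d + 2 := by
        unfold dev
        push_cast
        ring
      have h5 : (d + 2).choose 2 ≤ cond (V n (n * ν + k)) := by
        by_contra hcon
        push Not at hcon
        obtain ⟨μ', hμ', hv'⟩ := hval k
        have h6 : (ν : ℝ) ≤ μ' := by exact_mod_cast hμ'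
        have h7 := le_dev hv' (V_sum hn _) hn (by linarith) hcon.le
        linarith
      have h6 := ih (by rw [e]; push_cast at h1; linarith) h5
      exact Emp_emb id Function.injective_id (fun i => V_mono (by omega) i) h6

/-- the upward induction -/
theorem Sur_chain {n a c σ t ν : ℕ} (D : Dn a c n σ t) (hB : 77 * a ≤ 20 * (2 * ν + 1))
    (hν : 5 * (n : ℝ) ≤ 6 * (2 * ν + 1)) (hν3 : 3 ≤ ν) (d : ℕ) :
    ∀ j : ℕ, ∀ k : ℕ, dev n (n * ν + k) d ≤ 2 * (j : ℝ) + 13 / 5 →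
      cond (V n (n * ν + k)) ≤ (d + 2).choose 2 → Sur (V n (n * ν + k)) (TZ d) := by
  have hn : 0 < n := by have := D.hn; have := D.ha; omega
  have hval : ∀ k : ℕ, ∃ μ, ν ≤ μ ∧ ∀ i, V n (n * ν + k) i = μ ∨ V n (n * ν + k) i = μ + 1 := by
    intro k
    refine ⟨(n * ν + k) / n, ?_, V_val hn _⟩
    rw [Nat.le_div_iff_mul_le hn, mul_comm]
    omega
  have hsg : ∀ k : ℕ, |dev n (n * ν + k) d| ≤ 13 / 5 →
      cond (V n (n * ν + k)) ≤ (d + 2).choose 2 → Sur (V n (n * ν + k)) (TZ d) := by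
    intro k hk
    obtain ⟨μ, hμ, hv⟩ := hval k
    refine (sgn_near D hv (by omega) ?_).2
    rw [V_sum hn]
    exact hk
  intro j
  induction j with
  | zero =>
    intro k h1 h2
    obtain ⟨μ, hμ, hv⟩ := hval k
    have h6 : (ν : ℝ) ≤ μ := by exact_mod_cast hμ
    have h3 := le_dev hv (V_sum hn _) hn (by linarith) h2
    refine hsg k ?_ h2
    rw [abs_le]
    push_cast at h1
    constructor <;> linarith
  | succ j ih =>
    intro k h1 h2
    obtain ⟨μ, hμ, hv⟩ := hval k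
    have h6 : (ν : ℝ) ≤ μ := by exact_mod_cast hμ
    have h3 := le_dev hv (V_sum hn _) hn (by linarith) h2
    rcases le_or_gt (dev n (n * ν + k) d) (13 / 5) with h4 | h4
    · refine hsg k ?_ h2
      rw [abs_le]
      constructor <;> linarith
    · have e : dev n (n * ν + (k + 1)) d = dev n (n * ν + k) d - 2 := by
        unfold dev
        push_cast
        ring
      have h5 : cond (V n (n * ν + (k + 1))) ≤ (d + 2).choose 2 := by
        by_contra hcon
        push Not at hcon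
        obtain ⟨μ', hμ', hv'⟩ := hval (k + 1)
        have h7 := dev_le hv' (V_sum hn _) hn (by omega) hcon.le
        linarith
      have h6 := ih (k + 1) (by rw [e]; push_cast at h1; linarith) h5
      exact Sur_anti (fun i => V_mono (by omega) i) h6

end Pool.Agent.W71.NN
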