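import Pool.Agent.W71.NN.Fin
import Pool.Agent.TH641.NW.Win2

/-! Explicit windows for `a` points of large multiplicities and `c` points of multiplicity `m`. -/

namespace Pool.Agent.W71.NN

open Finset Pool.Agent.TH176.Nag Pool.Agent.TH603.Sur Pool.Agent.TH603.Cut Pool.Agent.TH641.NW
open Pool.Agent.TH760.EN

theorem Emp_core_c {ι : Type} [Fintype ι] {u : ι → ℕ} {c m a n σ t d J : ℕ} {r : ℝ} (h : HE c)
    (ha : Fintype.card ι = a) (ha9 : 9 ≤ a) (hn : n = 4 * a + c) (hσ : n = 4 * σ + t)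
    (hr0 : 3 ≤ r) (hr : r * r = n / 4)
    (h1 : r * (d + 3 / 2) + r / 3 + 1 / 8 + t / 4 < ((∑ i, u i : ℕ) : ℝ) + (c : ℝ) * m / 2 + n / 8)
    (hJ1 : r * J ≤ d) (hJ2 : (d : ℝ) < r * (J + 1))
    (htop : (3 * d - 3 * r * J) ^ 2 / 18 + 11 / 18 * (3 * d - 3 * r * J) + 17 / 8 + (σ : ℝ) * J ≤
      ((∑ i, u i : ℕ) : ℝ) + (c : ℝ) * m / 2 + 3 / 4) :
    Emp (Sum.elim u (fun _ : Fin c => m)) (TZ d) := by
  classical
  have hn' : (n : ℝ) = 4 * a + c := by rw [hn]; push_cast; ring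
  have hσ' : (n : ℝ) = 4 * σ + t := by rw [hσ]; push_cast; ring
  have eK : (3 * r) ^ 2 = 9 * (n / 4) := by rw [mul_pow, sq r, hr]; ring
  have hK0 : 0 ≤ 3 * r := by linarith
  have hfin := Emp_fin u h (m := m) (by omega)
  rw [ha] at hfin
  have t0 : (0 : ℝ) ≤ t := Nat.cast_nonneg t
  refine Emp_pl1 (K := 3 * r) hK0 (n' := (a : ℝ) + c / 4)
    (Z' := ((∑ i, u i : ℕ) : ℝ) + (c : ℝ) * m / 2 + 3 / 4)
    (σ := σ) (J := J) (ρ := fun j => if j < J then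
      ((∑ i, u i : ℕ) : ℝ) + (c : ℝ) * m / 2 + 3 / 4 - t / 4 - ((a : ℝ) + c / 4) * j else
    if j = J then (3 * d - 3 * r * J) ^ 2 / 18 + 11 / 18 * (3 * d - 3 * r * J) + 17 / 8
      else 0) ?_ ?_ ?_ ?_ ?_ ?_
  · linarith
  · intro x j B hB
    split_ifs with h2 h3
    · have h3 : (j : ℝ) + 1 ≤ J := by exact_mod_cast h2
      have h4 := mul_le_mul_of_nonneg_left h3 hK0
      have h5 := up_row2 (x := x) (by linarith) (by linarith) hB
      rw [ell_row, eK] at h5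
      have h6 : (((4 * (B.card : ℤ) : ℤ)) : ℝ) <
          ((4 * ((∑ i, u i : ℕ) : ℤ) + 2 * c * m + 4 - t - n * j : ℤ) : ℝ) := by
        push_cast at h1 ⊢
        linarith
      have h7 : 4 * (B.card : ℤ) < 4 * ((∑ i, u i : ℕ) : ℤ) + 2 * c * m + 4 - t - n * j := by
        exact_mod_cast h6
      have h8 : 4 * (B.card : ℤ) + 1 ≤ 4 * ((∑ i, u i : ℕ) : ℤ) + 2 * c * m + 4 - t - n * j := by omega
      have h9 : (((4 * (B.card : ℤ) + 1 : ℤ)) : ℝ) ≤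
          ((4 * ((∑ i, u i : ℕ) : ℤ) + 2 * c * m + 4 - t - n * j : ℤ) : ℝ) := by
        exact_mod_cast h8
      push_cast at h9 ⊢
      rw [hn'] at h9
      linarith
    · subst h3
      exact up_top (by linarith) (by linarith) (by linarith) hB
    · have h3 : (J : ℝ) + 1 ≤ j := by exact_mod_cast (by omega : J + 1 ≤ j)
      have h4 := mul_le_mul_of_nonneg_left h3 hK0
      have h5 : B = ∅ := by
        rw [Finset.eq_empty_iff_forall_notMem]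
        exact fun c hc => U_empty (by linarith) (hB c hc)
      rw [h5]; simp
  · intro j hj
    simp only [if_pos hj]
    linarith
  · simp only [lt_irrefl, if_false, if_true]
    exact htop
  · intro j hj
    simp only [if_neg (not_lt.2 hj.le), if_neg (show ¬ j = J by omega)]
    norm_num
  · exact hfin

/-- emptiness for large multiplicities -/
theorem Emp_win_c {ι : Type} [Fintype ι] {u : ι → ℕ} {c m a n σ t d : ℕ} (h : HE c)
    (ha : Fintype.card ι = a) (ha9 : 9 ≤ a) (hn : n = 4 * a + c) (hσ : n = 4 * σ + t)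
    (ht1 : 1 ≤ t) (ht4 : t ≤ 4)
    (hbig : (n : ℝ) * (n + 4) / 8 ≤ ((∑ i, u i : ℕ) : ℝ) + (c : ℝ) * m / 2)
    (h1 : √(n : ℝ) * (2 * d + 3) + 2 * √(n : ℝ) / 3 + 1 / 2 + t <
      4 * (((∑ i, u i : ℕ) : ℝ) + (c : ℝ) * m / 2) + n / 2) :
    Emp (Sum.elim u (fun _ : Fin c => m)) (TZ d) := by
  have hnR : (36 : ℝ) ≤ n := by exact_mod_cast (by omega : 36 ≤ n)
  obtain ⟨r, hrdef⟩ : ∃ r, r = √(n : ℝ) / 2 := ⟨_, rfl⟩
  obtain ⟨W, hW⟩ : ∃ W : ℝ, W = ((∑ i, u i : ℕ) : ℝ) + (c : ℝ) * m / 2 := ⟨_, rfl⟩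
  have hss : √(n : ℝ) * √(n : ℝ) = n := Real.mul_self_sqrt (by linarith)
  have hs6 : 6 ≤ √(n : ℝ) := Real.le_sqrt_of_sq_le (by norm_num; linarith)
  have hs : r * r = n / 4 := by rw [hrdef]; linarith [hss]
  have hs3 : 3 ≤ r := by rw [hrdef]; linarith
  have hs0 : 0 < r := by linarith
  have esq : √(n : ℝ) = 2 * r := by rw [hrdef]; ring
  rw [esq, ← hW] at h1
  rw [← hW] at hbig
  have hnr : (n : ℝ) = 4 * (r * r) := by rw [hs]; ring
  have t1 : (1 : ℝ) ≤ t := by exact_mod_cast ht1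
  have t4 : (t : ℝ) ≤ 4 := by exact_mod_cast ht4
  have hσ' : (n : ℝ) = 4 * σ + t := by rw [hσ]; push_cast; ring
  obtain ⟨v, hu⟩ : ∃ v : ℝ, v = (W + n / 8 - r / 3 - 1 / 8 - t / 4) / r - 3 / 2 := ⟨_, rfl⟩
  have hus : r * (v + 3 / 2) = W + n / 8 - r / 3 - 1 / 8 - t / 4 := by
    rw [hu]; field_simp; ring
  have hdu : (d : ℝ) < v := by
    have : r * ((d : ℝ) + 3 / 2) < r * (v + 3 / 2) := by rw [hus]; linarith
    have := lt_of_mul_lt_mul_left this hs0.le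
    linarith
  have hd0 : (0 : ℝ) ≤ d := Nat.cast_nonneg d
  have hu0 : 0 ≤ v := hd0.trans hdu.le
  have hceil : d + 1 ≤ ⌈v⌉₊ := by
    have : (d : ℝ) < (⌈v⌉₊ : ℝ) := lt_of_lt_of_le hdu (Nat.le_ceil v)
    have : d < ⌈v⌉₊ := by exact_mod_cast this
    omega
  obtain ⟨d', hd'⟩ : ∃ d' : ℕ, d' + 1 = ⌈v⌉₊ := ⟨⌈v⌉₊ - 1, by omega⟩
  have hd1 : (d' : ℝ) < v := by
    have h2 := Nat.ceil_lt_add_one hu0
    rw [← hd'] at h2
    push_cast at h2
    linarith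
  have hd2 : v ≤ d' + 1 := by
    have h2 := Nat.le_ceil v
    rw [← hd'] at h2
    push_cast at h2
    exact h2
  have hdd : d ≤ d' := by omega
  obtain ⟨J, hJ⟩ : ∃ J : ℕ, J = ⌊(d' : ℝ) / r⌋₊ := ⟨_, rfl⟩
  have hJ1 : r * J ≤ d' := by
    have := Nat.floor_le (show 0 ≤ (d' : ℝ) / r by positivity)
    rw [← hJ, le_div_iff₀ hs0] at this
    linarith
  have hJ2 : (d' : ℝ) < r * (J + 1) := by
    have := Nat.lt_floor_add_one ((d' : ℝ) / r)
    rw [← hJ, div_lt_iff₀ hs0] at this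
    linarith
  have hE1 : r * ((d' : ℝ) + 3 / 2) < W + n / 8 - r / 3 - 1 / 8 - t / 4 := by
    rw [← hus]; exact mul_lt_mul_of_pos_left (by linarith) hs0
  have hE2 : W + n / 8 - r / 3 - 1 / 8 - t / 4 ≤ r * ((d' : ℝ) + 5 / 2) := by
    rw [← hus]; exact mul_le_mul_of_nonneg_left (by linarith) hs0.le
  have hJn : (n : ℝ) / 2 ≤ J := by
    have h2 : r * (d' : ℝ) < r * (r * (J + 1)) := mul_lt_mul_of_pos_left hJ2 hs0
    have h3 : r * (r * ((J : ℝ) + 1)) = n / 4 * (J + 1) := by rw [← mul_assoc, hs]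
    rw [h3] at h2
    have h4 : (n : ℝ) / 4 * (n / 2) < n / 4 * J := by
      have h5 : (17 / 6) * r + 9 / 8 ≤ 3 / 8 * n := by
        rw [hnr]; nlinarith
      have h6 : (n : ℝ) * (n + 4) / 8 = n / 4 * (n / 2) + n / 2 := by ring
      linarith
    exact (lt_of_mul_lt_mul_left h4 (by linarith)).le
  have hmain : Emp (Sum.elim u (fun _ : Fin c => m)) (TZ d') := by
    refine Emp_core_c h ha ha9 hn hσ hs3 hs (J := J) ?_ ?_ ?_ ?_
    · rw [← hW]; linarith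
    · exact hJ1
    · exact hJ2
    · rw [← hW]
      obtain ⟨Y, hY⟩ : ∃ Y : ℝ, Y = 3 * d' - 3 * r * J := ⟨_, rfl⟩
      have hY0 : 0 ≤ Y := by rw [hY]; linarith
      have hYK : Y < 3 * r := by rw [hY]; linarith
      rw [← hY]
      have e1 : (n : ℝ) / 4 * J = r * d' - r * Y / 3 := by rw [hY, ← hs]; ring
      have e2 : (σ : ℝ) * J = n / 4 * J - t / 4 * J := by rw [hσ']; ring
      have h5 : (3 * r - Y) ^ 2 ≤ (3 * r) ^ 2 := pow_le_pow_left₀ (by linarith) (by linarith) 2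
      have h6 : (3 * r) ^ 2 = 9 * (n / 4) := by rw [mul_pow, sq r, hs]; ring
      have h7 : (3 * r - Y) ^ 2 = 9 * (n / 4) - 6 * r * Y + Y ^ 2 := by
        have : (3 * r - Y) ^ 2 = 9 * (r * r) - 6 * r * Y + Y ^ 2 := by ring
        rw [this, hs]
      rw [e2, e1]
      have hz : (3 * r - Y) ^ 2 / 18 - 11 / 18 * (3 * r - Y) + 1 ≤ (n : ℝ) / 8 := by
        rcases le_total (18 / 11) (3 * r - Y) with hz | hz
        · linarith
        · have : (3 * r - Y) ^ 2 ≤ (18 / 11) ^ 2 := pow_le_pow_left₀ (by linarith) hz 2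
          linarith
      have hJ0 : (0 : ℝ) ≤ J := Nat.cast_nonneg J
      have h8 : (n : ℝ) / 8 ≤ t / 4 * J := by nlinarith
      linarith
  refine hmain.mono ?_
  rintro ⟨p, q⟩ ⟨hp, hq, hpq⟩
  exact ⟨hp, hq, hpq.trans (by exact_mod_cast hdd)⟩

/-- independence -/
theorem Sur_win_c {ι : Type} [Fintype ι] {u : ι → ℕ} {c m a n β d : ℕ} (h : HS c)
    (ha : Fintype.card ι = a) (ha10 : 10 ≤ a) (hn : n = 4 * a + c)
    (hu : ∀ i, u i ≤ β + 1) (hm1 : 2 * m ≤ β + 1) (hm2 : β ≤ 2 * m + 1)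
    (h1 : 4 * ((∑ i, max (u i) β : ℕ) : ℝ) + c * (2 * m + 1) + n / 2 + 2 * √(n : ℝ) / 3 + 1 / 2 <
      √(n : ℝ) * (2 * d + 3)) :
    Sur (Sum.elim u (fun _ : Fin c => m)) (TZ d) := by
  have hnR : (40 : ℝ) ≤ n := by exact_mod_cast (by omega : 40 ≤ n)
  obtain ⟨s, hrdef⟩ : ∃ s, s = √(n : ℝ) / 2 := ⟨_, rfl⟩
  have hss : √(n : ℝ) * √(n : ℝ) = n := Real.mul_self_sqrt (by linarith)
  have hs6 : 6.2 ≤ √(n : ℝ) := Real.le_sqrt_of_sq_le (by norm_num; linarith)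
  have hs : s * s = n / 4 := by rw [hrdef]; linarith [hss]
  have hs3 : 3.1 ≤ s := by rw [hrdef]; linarith
  have hs0 : 0 < s := by linarith
  have esq : √(n : ℝ) = 2 * s := by rw [hrdef]; ring
  have hn' : (n : ℝ) = 4 * a + c := by rw [hn]; push_cast; ring
  obtain ⟨Wb, hWb⟩ : ∃ Wb : ℕ, Wb = ∑ i, max (u i) β := ⟨_, rfl⟩
  obtain ⟨W, hW⟩ : ∃ W : ℝ, W = (Wb : ℝ) + (c : ℝ) * (2 * m + 1) / 4 := ⟨_, rfl⟩
  have hfin := Sur_fin u h hu hm1 hm2
  rw [← hWb, ha] at hfin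
  rw [esq, ← hWb] at h1
  have h1' : W + n / 8 + s / 3 + 1 / 8 < s * (d + 3 / 2) := by rw [hW]; linarith
  -- an irrational slope slightly smaller than `3 s`
  obtain ⟨η, hη0, hη⟩ : ∃ η : ℝ, 0 < η ∧ η ≤ 0.3 ∧
      W + n / 8 + s / 3 + 1 / 8 + η * ((d + 3 / 2) / 3) ≤ s * (d + 3 / 2) := by
    have hd : 0 < ((d : ℝ) + 3 / 2) / 3 := by positivity
    refine ⟨min 0.3 ((s * (d + 3 / 2) - (W + n / 8 + s / 3 + 1 / 8)) / ((d + 3 / 2) / 3)), ?_,
      min_le_left _ _, ?_⟩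
    · exact lt_min (by norm_num) (div_pos (by linarith) hd)
    · have h2 := mul_le_mul_of_nonneg_right (min_le_right (0.3 : ℝ)
        ((s * (d + 3 / 2) - (W + n / 8 + s / 3 + 1 / 8)) / ((d + 3 / 2) / 3))) hd.le
      rw [div_mul_cancel₀ _ hd.ne'] at h2
      linarith
  obtain ⟨K, hKirr, hK1, hK2⟩ := exists_irrational_btwn (show 3 * s - η < 3 * s by linarith)
  have hK9 : 9 ≤ K := by linarith [hη.1]
  have hKs : K ^ 2 ≤ 9 * (n / 4) := by
    have : K ^ 2 ≤ (3 * s) ^ 2 := pow_le_pow_left₀ (by linarith) hK2.le 2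
    have e : (3 * s) ^ 2 = 9 * (n / 4) := by rw [mul_pow, sq s, hs]; ring
    linarith
  have hmain : W + n / 8 + K / 9 + 1 / 8 ≤ K / 3 * ((d : ℝ) + 3 / 2) := by
    have h3 : (3 * s - η) / 3 * ((d : ℝ) + 3 / 2) ≤ K / 3 * (d + 3 / 2) :=
      mul_le_mul_of_nonneg_right (by linarith) (by positivity)
    have h4 : (3 * s - η) / 3 * ((d : ℝ) + 3 / 2) = s * (d + 3 / 2) - η * ((d + 3 / 2) / 3) := by ring
    linarith [hη.2]
  refine Sur_pl keyS hK9 hKirr (n' := (a : ℝ) + c / 4)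
    (Z' := (Wb : ℝ) + (c : ℝ) * (2 * m + 1) / 4 - 3 / 4) ?_ hfin
  intro x j hj
  have hj0 : (0 : ℝ) ≤ j := Nat.cast_nonneg j
  have ea : (a : ℝ) + c / 4 = n / 4 := by rw [hn']; ring
  rw [ea] at hj ⊢
  have hY : 0 ≤ 3 * (d : ℝ) - K * j := by
    have h3 : K * j ≤ 3 * s * j := mul_le_mul_of_nonneg_right hK2.le hj0
    have h4 : s * (3 * s * j) < s * (3 * d) := by
      have e : s * (3 * s * (j : ℝ)) = 3 * (n / 4 * j) := by rw [← hs]; ring
      rw [e]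
      have h6 : 3 / 2 * s ≤ n / 8 + s / 3 := by
        have e2 : (n : ℝ) = 4 * (s * s) := by rw [hs]; ring
        rw [e2]
        nlinarith
      linarith
    have h5 := lt_of_mul_lt_mul_left h4 hs0.le
    linarith
  obtain ⟨B, hB1, hB2⟩ := low_row2 (x := x) hK9 hY
  refine ⟨B, hB1, ?_⟩
  rw [ell_row] at hB2
  have h7 : K ^ 2 / 9 * j ≤ n / 4 * j := mul_le_mul_of_nonneg_right (by linarith) hj0
  have h9 : ((4 * (Wb : ℤ) + c * (2 * m + 1) - n * j - 4 : ℤ) : ℝ) < ((4 * (B.card : ℤ) : ℤ) : ℝ) := by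
    push_cast
    rw [hW] at hmain
    linarith
  have h10 : 4 * (Wb : ℤ) + c * (2 * m + 1) - n * j - 4 < 4 * (B.card : ℤ) := by exact_mod_cast h9
  have h11 : 4 * (Wb : ℤ) + c * (2 * m + 1) - n * j - 3 ≤ 4 * (B.card : ℤ) := by omega
  have h12 : ((4 * (Wb : ℤ) + c * (2 * m + 1) - n * j - 3 : ℤ) : ℝ) ≤ ((4 * (B.card : ℤ) : ℤ) : ℝ) := by
    exact_mod_cast h11
  push_cast at h12
  linarith

end Pool.Agent.W71.NN
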