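import Pool.Agent.W71.NN.Spread
import Pool.Agent.TH335.EN.EndS
import Pool.Agent.TH760.EN.Defs
import Pool.Agent.TH698.NagT3

/-! The final triangles for arbitrary large multiplicities and `c` small points. -/

namespace Pool.Agent.W71.NN

open Finset Pool.Agent.TH176.Nag Pool.Agent.TH603.Sur Pool.Agent.TH603.Cut Pool.Agent.TH641.NW
open Pool.Agent.TH760.EN

/-- emptiness of the final triangle -/
theorem Emp_fin {ι : Type} [Fintype ι] (u : ι → ℕ) {c m : ℕ} (h : HE c)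
    (hA : 1 ≤ Fintype.card ι) :
    Emp (Sum.elim u (fun _ : Fin c => m))
      (Cl (((∑ i, u i : ℕ) : ℝ) + (c : ℝ) * m / 2 + 3 / 4) ((Fintype.card ι : ℝ) + (c : ℝ) / 4)) := by
  classical
  obtain ⟨A, hAd⟩ : ∃ A : ℕ, A = Fintype.card ι := ⟨_, rfl⟩
  obtain ⟨W, hW⟩ : ∃ W : ℕ, W = ∑ i, u i := ⟨_, rfl⟩
  rw [← hAd, ← hW]
  rw [← hAd] at hA
  have key : ∀ p : ℤ × ℤ, p ∈ Cl ((W : ℝ) + (c : ℝ) * m / 2 + 3 / 4) ((A : ℝ) + (c : ℝ) / 4) →
      0 ≤ p.1 ∧ 0 ≤ p.2 ∧ 4 * p.1 + (4 * (A : ℤ) + c) * p.2 < 4 * (W : ℤ) + 2 * (c : ℤ) * m := by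
    rintro ⟨x, y⟩ ⟨h1, h2, h3⟩
    simp only at h1 h2 h3
    refine ⟨h1, h2, ?_⟩
    simp only
    have h4 : (((4 * x + (4 * (A : ℤ) + c) * y + 1 : ℤ)) : ℝ) ≤
        ((4 * (W : ℤ) + 2 * (c : ℤ) * m : ℤ) : ℝ) := by
      push_cast
      linarith
    have h5 : (4 * x + (4 * (A : ℤ) + c) * y + 1) ≤ 4 * (W : ℤ) + 2 * (c : ℤ) * m := by
      exact_mod_cast h4
    linarith
  obtain ⟨S, hS⟩ : ∃ S, S = {p : ℤ × ℤ | 0 ≤ p.1 ∧ 0 ≤ p.2 ∧
      4 * p.1 + (4 * (A : ℤ) + c) * p.2 < 4 * (W : ℤ) + 2 * (c : ℤ) * m} := ⟨_, rfl⟩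
  have hfin : S.Finite := by
    obtain ⟨N, hN⟩ : ∃ N : ℤ, N = 4 * (W : ℤ) + 2 * (c : ℤ) * m := ⟨_, rfl⟩
    apply Set.Finite.subset (Set.finite_Icc ((0, 0) : ℤ × ℤ) (N, N))
    rintro ⟨x, y⟩ hp
    rw [hS] at hp
    obtain ⟨h1, h2, h3⟩ := hp
    simp only at h1 h2 h3
    rw [← hN] at h3
    have h4 : (1 : ℤ) ≤ 4 * (A : ℤ) + c := by
      have : (1 : ℤ) ≤ A := by exact_mod_cast hA
      have : (0 : ℤ) ≤ c := by positivity
      linarith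
    have h5 : y ≤ (4 * (A : ℤ) + c) * y := by nlinarith
    rw [Set.mem_Icc, Prod.mk_le_mk, Prod.mk_le_mk]
    exact ⟨⟨h1, h2⟩, by linarith, by linarith⟩
  have hpos : ∀ p ∈ S, 0 ≤ p.1 ∧ 0 ≤ p.2 := by
    intro p hp
    rw [hS] at hp
    exact ⟨hp.1, hp.2.1⟩
  refine Emp.mono (S' := S) ?_ (fun p hp => by rw [hS]; exact key p hp)
  have e : S = {p | p ∈ S ∧ p.1 + (A : ℤ) * p.2 < (W : ℤ)} ∪ {p | p ∈ S ∧ (W : ℤ) ≤ p.1 + (A : ℤ) * p.2} := by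
    ext p
    constructor
    · intro hp
      rcases lt_or_ge (p.1 + (A : ℤ) * p.2) (W : ℤ) with h1 | h1
      · exact Or.inl ⟨hp, h1⟩
      · exact Or.inr ⟨hp, h1⟩
    · rintro (hp | hp) <;> exact hp.1
  rw [e]
  refine Pool.Agent.TH698.NagT3.Emp_cut (hfin.subset fun p hp => hp.1)
    (hfin.subset fun p hp => hp.1) (fun p hp => hpos p hp.1)
    (fun p hp => hpos p hp.1) 1 A ?_ ?_ ?_
  · rintro p ⟨_, h1⟩ q ⟨_, h2⟩
    linarith
  · refine (Emp_rows u 0).mono ?_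
    rintro ⟨x, y⟩ ⟨hp, h4⟩
    obtain ⟨h1, h2⟩ := hpos _ hp
    simp only at h1 h2 h4
    obtain ⟨k, rfl⟩ := Int.eq_ofNat_of_zero_le h2
    obtain ⟨x', rfl⟩ := Int.eq_ofNat_of_zero_le h1
    have h5 : x' + A * k < W := by exact_mod_cast h4
    have h3 : ∑ i, u i ≤ ∑ i, (u i - k) + Fintype.card ι * k := by
      have : Fintype.card ι * k = ∑ _i : ι, k := by simp
      rw [this, ← sum_add_distrib]
      exact sum_le_sum fun i _ => by omega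
    rw [← hW, ← hAd] at h3
    refine ⟨h2, h1, ?_⟩
    simp only [Int.toNat_natCast, zero_add]
    have : x' < ∑ i, (u i - k) := by omega
    exact_mod_cast this
  · refine (h m).comap 1 A 0 1 (-(W : ℤ)) 0 (by norm_num) ?_
    rintro ⟨x, y⟩ ⟨hp, h4⟩
    rw [hS] at hp
    obtain ⟨h1, h2, h3⟩ := hp
    simp only at h1 h2 h3 h4
    refine ⟨by simp only; linarith, by simp only; linarith, ?_⟩
    simp only
    linarith

/-- independence for the final triangle -/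
theorem Sur_fin {ι : Type} [Fintype ι] (u : ι → ℕ) {c m β : ℕ} (h : HS c)
    (hu : ∀ i, u i ≤ β + 1) (h1 : 2 * m ≤ β + 1) (h2 : β ≤ 2 * m + 1) :
    Sur (Sum.elim u (fun _ : Fin c => m))
      (Op (((∑ i, max (u i) β : ℕ) : ℝ) + (c : ℝ) * (2 * m + 1) / 4 - 3 / 4)
        ((Fintype.card ι : ℝ) + (c : ℝ) / 4)) := by
  obtain ⟨A, hAd⟩ : ∃ A : ℕ, A = Fintype.card ι := ⟨_, rfl⟩
  obtain ⟨W, hW⟩ : ∃ W : ℕ, W = ∑ i, max (u i) β := ⟨_, rfl⟩
  rw [← hAd, ← hW]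
  have hAW : A * β ≤ W := by
    have e : A * β = ∑ _i : ι, β := by simp [hAd]
    rw [e, hW]
    exact sum_le_sum fun i _ => le_max_right _ _
  have g1 : Sur u {p : ℤ × ℤ | 0 ≤ p.1 ∧ 0 ≤ p.2 ∧ p.1 < (W : ℤ) - A * p.2 ∧ p.2 ≤ (β : ℤ)} := by
    apply Sur_rows u 0
    intro k j hj
    have hk : ∃ i, k < u i := by
      by_contra hcon
      push Not at hcon
      have : ∑ i, (u i - k) = 0 := sum_eq_zero fun i _ => Nat.sub_eq_zero_of_le (hcon i)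
      omega
    obtain ⟨i, hi⟩ := hk
    have hkb : k ≤ β := by have := hu i; omega
    have h2 : ∑ i, (u i - k) + Fintype.card ι * k ≤ ∑ i, max (u i) β := by
      have : Fintype.card ι * k = ∑ _i : ι, k := by simp
      rw [this, ← sum_add_distrib]
      refine sum_le_sum fun i _ => ?_
      rcases le_total (u i) k with h | h
      · rw [Nat.sub_eq_zero_of_le h, zero_add]
        exact hkb.trans (le_max_right _ _)
      · rw [Nat.sub_add_cancel h]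
        exact le_max_left _ _
    rw [← hW, ← hAd] at h2
    have h3 : j + A * k < W := by omega
    have h4 : (j : ℤ) + A * k < W := by exact_mod_cast h3
    refine ⟨by simp, by simp, ?_, by simp only; omega⟩
    simp only [zero_add]
    linarith
  have g2 : Sur (fun _ : Fin c => m)
      {p : ℤ × ℤ | 0 ≤ p.2 ∧ (W : ℤ) - A * p.2 ≤ p.1 ∧ p.2 < 2 * (m : ℤ) ∧
        4 * (p.1 - W + A * p.2) + (c : ℤ) * p.2 + 4 ≤ 2 * (c : ℤ) * m + c} := by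
    refine (h m).comap 1 A 0 1 (-(W : ℤ)) 0 (by norm_num) ?_
    rintro ⟨i, y⟩ ⟨k1, k2, k3, k4⟩
    simp only at k1 k2 k3 k4
    refine ⟨(i + (W - A * y), y), ⟨k2, ?_, k3, ?_⟩, ?_⟩
    · simp only
      linarith
    · simp only
      linarith
    · simp only [Prod.mk.injEq]
      exact ⟨by ring, by ring⟩
  have hpos : ∀ y : ℤ, 0 ≤ y → y < 2 * (m : ℤ) → 0 ≤ (W : ℤ) - A * y := by
    intro y hy1 hy2
    have k1 : y ≤ β := by omega
    have k2 : (A : ℤ) * y ≤ A * β := mul_le_mul_of_nonneg_left k1 (by positivity)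
    have k3 : (A : ℤ) * β ≤ W := by exact_mod_cast hAW
    linarith
  have h3 := Pool.Agent.TH335.EN.Sur_cut (fun p hp => ⟨hp.1, hp.2.1⟩) (fun p hp => ⟨?_, hp.1⟩) 1 A ?_ g1 g2
  · refine h3.mono ?_
    rintro p (⟨k1, k2, k3, k4⟩ | ⟨k1, k2, k3, k4⟩)
    · refine ⟨k1, k2, ?_⟩
      have k5 : p.2 ≤ 2 * (m : ℤ) + 1 := by omega
      have k6 : (c : ℤ) * p.2 ≤ c * (2 * m + 1) := mul_le_mul_of_nonneg_left k5 (by positivity)
      have k7 : 4 * (p.1 + 1) ≤ 4 * ((W : ℤ) - A * p.2) := by linarith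
      have k8 : 4 * p.1 + (4 * (A : ℤ) + c) * p.2 + 4 ≤ 4 * (W : ℤ) + c * (2 * m + 1) := by linarith
      have k9 : ((4 * p.1 + (4 * (A : ℤ) + c) * p.2 + 4 : ℤ) : ℝ) ≤
          ((4 * (W : ℤ) + c * (2 * m + 1) : ℤ) : ℝ) := by exact_mod_cast k8
      push_cast at k9
      linarith
    · refine ⟨?_, k1, ?_⟩
      · have := hpos p.2 k1 k3
        linarith
      · have k8 : 4 * p.1 + (4 * (A : ℤ) + c) * p.2 + 4 ≤ 4 * (W : ℤ) + c * (2 * m + 1) := by linarith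
        have k9 : ((4 * p.1 + (4 * (A : ℤ) + c) * p.2 + 4 : ℤ) : ℝ) ≤
            ((4 * (W : ℤ) + c * (2 * m + 1) : ℤ) : ℝ) := by exact_mod_cast k8
        push_cast at k9
        linarith
  · have := hpos p.2 hp.1 hp.2.2.1
    linarith [hp.2.1]
  · rintro p ⟨k1, k2, k3, k4⟩ p' ⟨k1', k2', k3', k4'⟩
    linarith

end Pool.Agent.W71.NN
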