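import Pool.Agent.W71.NN.Chain
import Pool.Agent.TH760.EN.Asm

/-! Near-uniform vectors at every number `n ≥ 96` of general points: the expected dimension in every
degree. -/

namespace Pool.Agent.W71.NN

open Finset Pool.Agent.TH176.Nag Pool.Agent.TH603.Sur Pool.Agent.TH763.DB Module Pool.Agent.TH641.UM
open Pool.Agent.TH2.NU Pool.Agent.TH760.EN Pool.Agent.H932R3

theorem sqrt_lt {n : ℕ} {x : ℝ} (hx : 0 ≤ x) (h : (n : ℝ) < x ^ 2) : √(n : ℝ) < x := by
  rw [Real.sqrt_lt' (lt_of_le_of_ne hx ?_)]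
  · exact h
  · rintro rfl
    have : (0 : ℝ) ≤ n := Nat.cast_nonneg n
    norm_num at h
    linarith

theorem exists_Dn {n : ℕ} (hn : 96 ≤ n) : ∃ a c σ t : ℕ, Dn a c n σ t := by
  have h3 : HE 3 := Pool.Agent.TH641.EN.HE_three
  rcases (by omega : n % 4 = 0 ∨ n % 4 = 1 ∨ n % 4 = 2 ∨ n % 4 = 3) with h | h | h | h
  · obtain ⟨a, ha⟩ : ∃ a, n = 4 * a := ⟨n / 4, by omega⟩
    have ha24 : (24 : ℝ) ≤ a := by exact_mod_cast (by omega : 24 ≤ a)
    have hna : (n : ℝ) = 4 * a := by rw [ha]; push_cast; ring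
    have hs : √(n : ℝ) < a - 13.25 := sqrt_lt (by linarith) (by rw [hna]; nlinarith)
    refine ⟨a, 0, a - 1, 4, he0, hs0, by omega, by omega, by omega, by omega, by omega, by omega, ?_⟩
    unfold lE
    push_cast
    linarith
  · obtain ⟨a, ha⟩ : ∃ a, n = 4 * a + 5 := ⟨(n - 5) / 4, by omega⟩
    have ha24 : (23 : ℝ) ≤ a := by exact_mod_cast (by omega : 23 ≤ a)
    have hna : (n : ℝ) = 4 * a + 5 := by rw [ha]; push_cast; ring
    have hs : √(n : ℝ) < a - 12.5 := sqrt_lt (by linarith) (by rw [hna]; nlinarith)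
    refine ⟨a, 5, a + 1, 1, Pool.Agent.TH938.Q5.he5 he2 h3, Pool.Agent.TH938.Q5.hs5 he2 h3, by omega,
      by omega, by omega, by omega, by omega, by omega, ?_⟩
    unfold lE
    push_cast
    linarith
  · obtain ⟨a, ha⟩ : ∃ a, n = 4 * a + 2 := ⟨n / 4, by omega⟩
    have ha24 : (24 : ℝ) ≤ a := by exact_mod_cast (by omega : 24 ≤ a)
    have hna : (n : ℝ) = 4 * a + 2 := by rw [ha]; push_cast; ring
    have hs : √(n : ℝ) < a - 11.75 := sqrt_lt (by linarith) (by rw [hna]; nlinarith)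
    refine ⟨a, 2, a, 2, he2, hs2, by omega, by omega, by omega, by omega, by omega, by omega, ?_⟩
    unfold lE
    push_cast
    linarith
  · obtain ⟨a, ha⟩ : ∃ a, n = 4 * a + 3 := ⟨n / 4, by omega⟩
    have ha24 : (24 : ℝ) ≤ a := by exact_mod_cast (by omega : 24 ≤ a)
    have hna : (n : ℝ) = 4 * a + 3 := by rw [ha]; push_cast; ring
    have hs : √(n : ℝ) < a - 14 := sqrt_lt (by linarith) (by rw [hna]; nlinarith)
    refine ⟨a, 3, a, 3, h3, hs3_of h3, by omega, by omega, by omega, by omega, by omega, by omega, ?_⟩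
    unfold lE
    push_cast
    linarith

/-- the degrees of the window -/
theorem crit96 {n m : ℕ} (hn : 96 ≤ n) {w : Fin n → ℕ} (hw : ∀ i, w i = m ∨ w i = m + 1)
    (hm : (n : ℝ) - 6 * √(n : ℝ) + 10 ≤ m) {d : ℕ}
    (hcrit : |√(n : ℝ) * (2 * d + 3) - (n + 2 * (∑ i, (w i : ℝ)))| ≤ 2 * √(n : ℝ) / 3 + 9 / 4) :
    ((d + 2).choose 2 ≤ cond w → Emp w (TZ d)) ∧ (cond w ≤ (d + 2).choose 2 → Sur w (TZ d)) := by
  obtain ⟨a, c, σ, t, D⟩ := exists_Dn hn
  have hnR : (96 : ℝ) ≤ n := by exact_mod_cast hn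
  have hn0 : 0 < n := by omega
  obtain ⟨s, hs⟩ : ∃ s, s = √(n : ℝ) := ⟨_, rfl⟩
  have hss : s * s = n := by rw [hs]; exact Real.mul_self_sqrt (by linarith)
  have hs9 : 9.79 ≤ s := by rw [hs]; exact Real.le_sqrt_of_sq_le (by norm_num; linarith)
  rw [← hs] at hm
  have hm4 : (4 : ℝ) ≤ m := by nlinarith
  have hm4' : 4 ≤ m := by exact_mod_cast hm4
  obtain ⟨ν, hν⟩ : ∃ ν, m = ν + 1 := ⟨m - 1, by omega⟩
  have hνR : (m : ℝ) = ν + 1 := by rw [hν]; push_cast; ring
  have hn' : (n : ℝ) = 4 * a + c := by rw [D.hn]; push_cast; ring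
  have hc0 : (0 : ℝ) ≤ c := Nat.cast_nonneg c
  have hB : 77 * a ≤ 20 * (2 * ν + 1) := by
    have h1 : 77 * (a : ℝ) ≤ 20 * (2 * ν + 1) := by nlinarith
    exact_mod_cast h1
  have hν5 : 5 * (n : ℝ) ≤ 6 * (2 * ν + 1) := by nlinarith
  have hν3 : 3 ≤ ν := by omega
  -- the sum
  obtain ⟨W, hW⟩ : ∃ W, W = ∑ i, w i := ⟨_, rfl⟩
  have hlow : n * m ≤ W := by
    have h1 : ∑ _i : Fin n, m ≤ ∑ i, w i := sum_le_sum fun i _ => by
      rcases hw i with h | h <;> omega
    rw [hW]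
    simpa using h1
  have hup : W ≤ n * m + n := by
    have h1 : ∑ i, w i ≤ ∑ _i : Fin n, (m + 1) := sum_le_sum fun i _ => by
      rcases hw i with h | h <;> omega
    simp only [sum_const, card_univ, Fintype.card_fin, smul_eq_mul] at h1
    rw [hW]
    linarith
  have hWR : ((∑ i, w i : ℕ) : ℝ) = ∑ i, (w i : ℝ) := by push_cast; rfl
  rw [← hWR, ← hW] at hcrit
  obtain ⟨k, hk⟩ : ∃ k, W = n * ν + k := ⟨W - n * ν, by
    have : n * m = n * ν + n := by rw [hν]; ring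
    omega⟩
  have hkn : n ≤ k := by
    have : n * m = n * ν + n := by rw [hν]; ring
    omega
  have hkR : (n : ℝ) ≤ k := by exact_mod_cast hkn
  have hV : ∀ i, V n W i = m ∨ V n W i = m + 1 := by
    intro i
    unfold V
    have hi := i.2
    have h1 : m ≤ (W + i) / n := by
      rw [Nat.le_div_iff_mul_le hn0, mul_comm]
      omega
    have h2 : (W + i) / n < m + 2 := by
      rw [Nat.div_lt_iff_lt_mul hn0]
      have : (m + 2) * n = n * m + 2 * n := by ring
      omega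
    omega
  have hms : ms w = ms (V n W) := ms_eq hw hV rfl (by rw [V_sum hn0, hW])
  have hcond : cond w = cond (V n W) := by rw [cond_condM, cond_condM, hms]
  rw [hcond]
  have hdev : |dev n W d| ≤ 2 * s / 3 + 9 / 4 := by
    unfold dev
    rw [← hs] at hcrit ⊢
    exact hcrit
  rw [abs_le] at hdev
  have hsn : s ≤ n := by nlinarith
  constructor
  · intro h
    have h1 : Emp (V n W) (TZ d) := by
      rw [hk] at h hdev ⊢
      exact Emp_chain D hB hν5 hν3 d k (by linarith [hdev.1]) h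
    exact Emp_of_ms hms.ge h1
  · intro h
    have h1 : Sur (V n W) (TZ d) := by
      rw [hk] at h hdev ⊢
      exact Sur_chain D hB hν5 hν3 d n k (by linarith [hdev.2]) h
    exact (SurM_iff hms _).1 ((SurM_iff rfl _).2 h1)

/-- **Every degree** at every number `n ≥ 96` of general points of multiplicities `m`, `m + 1`. -/
theorem near96 {n m : ℕ} (hn : 96 ≤ n) (hm1 : 1 ≤ m) {w : Fin n → ℕ}
    (hw : ∀ i, w i = m ∨ w i = m + 1) {L : Type} [Field L] [CharZero L] :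
    ∃ F : MvPolynomial (Fin n × Fin 2) ℚ, F ≠ 0 ∧ ∀ (P : Fin n → Fin 2 → L),
      MvPolynomial.aeval (fun ij : Fin n × Fin 2 => P ij.1 ij.2) F ≠ 0 →
      ∀ d : ℕ, ExpDim L w P d :=
  Pool.Agent.TH941.NU.near_of_window (by omega) hm1 hw fun hm _ hcrit => crit96 hn hw hm hcrit

end Pool.Agent.W71.NN
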