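import Pool.Agent.W71.NN.Final
import Pool.Agent.TH545.SD.Dh

/-! Systems with several sizes of multiplicities, in the ratios `1 : 2 : 4 : …`. -/

set_option autoImplicit false

namespace Pool.Agent.W71.NN

open Finset Pool.Agent.TH176.Nag Pool.Agent.TH603.Sur Pool.Agent.TH641.UM Pool.Agent.TH2.NU
open Pool.Agent.TH545.SD
open Pool.Agent.H932R3 (ExpDim)

/-- all systems with the multiplicities `v` have the expected dimension (combinatorial form) -/
structure Good (v : Multiset ℕ) : Prop where
  out : Gd v

theorem Good.one {b : ℕ} {e : Multiset ℕ} (hb : 1 ≤ b) (h : Good (b ::ₘ e)) : Good (quarters b + e) :=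
  ⟨Gd.one hb h.out⟩

theorem Good.four {N b : ℕ} {e : Multiset ℕ} (hN : 1 ≤ N) (hb : 1 ≤ b) (h1 : Good (N • {b} + e))
    (h2 : Good (N • {b + 1} + e)) : Good (N • halves b + e) := ⟨Gd.four hN hb h1.out h2.out⟩

theorem good_near {m : ℕ} {v : Multiset ℕ} (hn : 96 ≤ v.card) (hm : 1 ≤ m)
    (hv : ∀ a ∈ v, a = m ∨ a = m + 1) : Good v := by
  obtain ⟨s, u, rfl⟩ := Pool.Agent.TH545.SD.exists_fam v
  rw [ms_card, Fintype.card_fin] at hn
  obtain ⟨F, hF, hF'⟩ := near96 hn hm (w := u) (fun i => hv _ (mem_ms u i)) (L := ℚ)
  exact ⟨Gd_of_expDim fun d => ⟨F, hF, fun P hP => hF' P hP d⟩⟩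

theorem good_ones {b : ℕ} (hb : 1 ≤ b) (x : ℕ) : ∀ {e : Multiset ℕ}, Good (x • {b} + e) →
    Good (x • quarters b + e) := by
  induction x with
  | zero =>
    intro e h
    rw [zero_smul, zero_add] at h ⊢
    exact h
  | succ x ih =>
    intro e h
    have e1 : (x + 1) • ({b} : Multiset ℕ) + e = b ::ₘ (x • {b} + e) := by
      rw [succ_nsmul, add_comm (x • ({b} : Multiset ℕ)), add_assoc, Multiset.singleton_add]
    rw [e1] at h
    have h1 := Good.one hb h
    have e2 : quarters b + (x • ({b} : Multiset ℕ) + e) = x • {b} + (quarters b + e) := by abel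
    rw [e2] at h1
    have h2 := ih h1
    have e3 : (x + 1) • quarters b + e = x • quarters b + (quarters b + e) := by
      rw [succ_nsmul]
      abel
    rw [e3]
    exact h2

theorem bal {b : ℕ} {x : Multiset ℕ} (hx : ∀ y ∈ x, y = b ∨ y = b + 1) :
    ∃ i j : ℕ, x = i • {b} + j • {b + 1} := by
  induction x using Multiset.induction_on with
  | empty => exact ⟨0, 0, by simp⟩
  | cons y x ih =>
    obtain ⟨i, j, hij⟩ := ih fun z hz => hx z (Multiset.mem_cons_of_mem hz)
    rcases hx y (Multiset.mem_cons_self y x) with h | h
    · refine ⟨i + 1, j, ?_⟩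
      rw [hij, h, ← Multiset.singleton_add, succ_nsmul]
      abel
    · refine ⟨i, j + 1, ?_⟩
      rw [hij, h, ← Multiset.singleton_add, succ_nsmul]
      abel

/-- balanced multisets with the same cardinality and the same sum are equal -/
theorem eq_of_bal {b h : ℕ} {x c : Multiset ℕ} (hx : ∀ y ∈ x, y = b ∨ y = b + 1)
    (hc : ∀ y ∈ c, y = h ∨ y = h + 1) (h1 : x.card = c.card) (h2 : x.sum = c.sum) : x = c := by
  obtain ⟨i, j, rfl⟩ := bal hx
  obtain ⟨i', j', rfl⟩ := bal hc
  simp only [Multiset.card_add, Multiset.card_nsmul, Multiset.card_singleton, Multiset.sum_add,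
    Multiset.sum_nsmul, Multiset.sum_singleton, smul_eq_mul, mul_one] at h1 h2
  rcases lt_trichotomy b h with hbh | hbh | hbh
  · obtain ⟨t, rfl⟩ := Nat.exists_eq_add_of_lt hbh
    have e1 : (i + j) * (b + 1) + (i' + j') * t + j' = i' * (b + t + 1) + j' * (b + t + 1 + 1) := by
      rw [h1]; ring
    have e2 : (i + j) * (b + 1) = i * b + j * (b + 1) + i := by ring
    have e3 : i + (i' + j') * t + j' = 0 := by
      rw [e2, h2] at e1
      omega
    have hi : i = 0 := by omega
    have hj : j' = 0 := by omega
    have ht : (i' + j') * t = 0 := by omega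
    subst hi hj
    rcases Nat.mul_eq_zero.1 ht with h3 | h3
    · have hi' : i' = 0 := by omega
      have hj' : j = 0 := by omega
      subst hi' hj'
      simp
    · subst h3
      have : j = i' := by omega
      subst this
      simp
  · subst hbh
    have e1 : i * b + j * (b + 1) = (i + j) * b + j := by ring
    have e2 : i' * b + j' * (b + 1) = (i' + j') * b + j' := by ring
    rw [e1, e2, h1] at h2
    have hj : j = j' := by omega
    have hi : i = i' := by omega
    rw [hi, hj]
  · obtain ⟨t, rfl⟩ := Nat.exists_eq_add_of_lt hbh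
    have e1 : (i' + j') * (h + 1) + (i + j) * t + j = i * (h + t + 1) + j * (h + t + 1 + 1) := by
      rw [← h1]; ring
    have e2 : (i' + j') * (h + 1) = i' * h + j' * (h + 1) + i' := by ring
    have e3 : i' + (i + j) * t + j = 0 := by
      rw [e2, ← h2] at e1
      omega
    have hi : i' = 0 := by omega
    have hj : j = 0 := by omega
    have ht : (i + j) * t = 0 := by omega
    subst hi hj
    rcases Nat.mul_eq_zero.1 ht with h3 | h3
    · have hi' : i = 0 := by omega
      have hj' : j' = 0 := by omega
      subst hi' hj'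
      simp
    · subst h3
      have : i = j' := by omega
      subst this
      simp

theorem card_quarters (b : ℕ) : (quarters b).card = 4 := rfl

theorem card_halves (b : ℕ) : (halves b).card = 4 := rfl

theorem sum_quarters {b : ℕ} (hb : 1 ≤ b) : (quarters b).sum + 1 = 2 * b := by
  unfold quarters
  simp only [Multiset.insert_eq_cons, Multiset.sum_cons, Multiset.sum_singleton]
  omega

theorem sum_halves (b : ℕ) : (halves b).sum = 2 * b := by
  unfold halves
  simp only [Multiset.insert_eq_cons, Multiset.sum_cons, Multiset.sum_singleton]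
  omega

theorem mem_quarters {b y : ℕ} : y ∈ quarters b ↔
    y = (2 * b - 1) / 4 ∨ y = 2 * b / 4 ∨ y = (2 * b + 1) / 4 ∨ y = (2 * b + 2) / 4 := by
  unfold quarters
  simp

theorem mem_halves {b y : ℕ} : y ∈ halves b ↔
    y = b / 2 ∨ y = b / 2 ∨ y = (b + 1) / 2 ∨ y = (b + 1) / 2 := by
  unfold halves
  simp

theorem mem_nsmul_of {n y : ℕ} {s : Multiset ℕ} (h : y ∈ n • s) : y ∈ s :=
  Multiset.mem_of_mem_nsmul h

/-- **The step**: all choices of `a` numbers `B`, `B + 1` may be replaced by `4 a` numbers of half the
size. -/
theorem good_halve {B a : ℕ} {e : Multiset ℕ} (hB : 1 ≤ B)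
    (H : ∀ v : Multiset ℕ, v.card = a → (∀ y ∈ v, y = B ∨ y = B + 1) → Good (v + e))
    {b : ℕ} {x : Multiset ℕ} (hx : ∀ y ∈ x, y = b ∨ y = b + 1) (hc : x.card = 4 * a)
    (h1 : 2 * a * B ≤ x.sum + a) (h2 : x.sum ≤ 2 * a * B + a) : Good (x + e) := by
  rcases le_or_gt (2 * a * B) x.sum with h3 | h3
  · -- the sum is at least `2 a B`
    obtain ⟨δ, hδ⟩ := Nat.exists_eq_add_of_le h3
    have hδa : δ ≤ a := by omega
    obtain ⟨r, hr⟩ := Nat.exists_eq_add_of_le hδa
    have ex : x = δ • quarters (B + 1) + r • halves B := by
      have hh : ∀ y ∈ δ • quarters (B + 1) + r • halves B, y = B / 2 ∨ y = B / 2 + 1 := by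
        intro y hy
        rcases Multiset.mem_add.1 hy with h | h
        · have h4 := mem_quarters.1 (mem_nsmul_of h)
          omega
        · have h4 := mem_halves.1 (mem_nsmul_of h)
          omega
      refine eq_of_bal hx hh ?_ ?_
      · rw [Multiset.card_add, Multiset.card_nsmul, Multiset.card_nsmul, card_quarters, card_halves, hc,
          hr]
        ring
      · rw [Multiset.sum_add, Multiset.sum_nsmul, Multiset.sum_nsmul, sum_halves, hδ, hr]
        have h5 := sum_quarters (b := B + 1) (by omega)
        have h6 : (quarters (B + 1)).sum = 2 * B + 1 := by omega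
        rw [h6]
        simp only [smul_eq_mul]
        ring
    have hv : ∀ s t : ℕ, s + t = a → Good (s • {B} + (t • {B + 1} + e)) := by
      intro s t hst
      have h4 := H (s • {B} + t • {B + 1}) (by simp [hst]) (by
        intro y hy
        rcases Multiset.mem_add.1 hy with h | h
        · exact Or.inl (Multiset.mem_singleton.1 (mem_nsmul_of h))
        · exact Or.inr (Multiset.mem_singleton.1 (mem_nsmul_of h)))
      rw [add_assoc] at h4
      exact h4
    rw [ex]
    rcases Nat.eq_zero_or_pos r with hr0 | hr0
    · subst hr0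
      rw [zero_smul, add_zero]
      refine good_ones (by omega) δ ?_
      have h4 := hv 0 δ (by omega)
      rw [zero_smul, zero_add] at h4
      exact h4
    · have g1 : Good (r • {B} + (δ • quarters (B + 1) + e)) := by
        have h4 := hv r δ (by omega)
        have e1 : r • ({B} : Multiset ℕ) + (δ • {B + 1} + e) = δ • {B + 1} + (r • {B} + e) := by abel
        rw [e1] at h4
        have h5 := good_ones (by omega) δ h4
        have e2 : δ • quarters (B + 1) + (r • ({B} : Multiset ℕ) + e) =
          r • {B} + (δ • quarters (B + 1) + e) := by abel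
        rw [e2] at h5
        exact h5
      have g2 : Good (r • {B + 1} + (δ • quarters (B + 1) + e)) := by
        have h4 := hv 0 a (by omega)
        rw [zero_smul, zero_add, hr, add_smul] at h4
        have e1 : δ • ({B + 1} : Multiset ℕ) + r • {B + 1} + e = δ • {B + 1} + (r • {B + 1} + e) := by
          abel
        rw [e1] at h4
        have h5 := good_ones (by omega) δ h4
        have e2 : δ • quarters (B + 1) + (r • ({B + 1} : Multiset ℕ) + e) =
          r • {B + 1} + (δ • quarters (B + 1) + e) := by abel
        rw [e2] at h5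
        exact h5
      have h6 := Good.four hr0 hB g1 g2
      have e3 : δ • quarters (B + 1) + r • halves B + e = r • halves B + (δ • quarters (B + 1) + e) := by
        abel
      rw [e3]
      exact h6
  · -- the sum is smaller
    obtain ⟨δ, hδ⟩ := Nat.exists_eq_add_of_le h3.le
    have hδa : δ ≤ a := by omega
    obtain ⟨r, hr⟩ := Nat.exists_eq_add_of_le hδa
    have ex : x = δ • quarters B + r • halves B := by
      obtain ⟨h', hh'⟩ : ∃ h' : ℕ, ∀ y ∈ δ • quarters B + r • halves B, y = h' ∨ y = h' + 1 := by
        refine ⟨(B - 1) / 2, fun y hy => ?_⟩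
        rcases Multiset.mem_add.1 hy with h | h
        · have h4 := mem_quarters.1 (mem_nsmul_of h)
          omega
        · have h4 := mem_halves.1 (mem_nsmul_of h)
          omega
      refine eq_of_bal hx hh' ?_ ?_
      · rw [Multiset.card_add, Multiset.card_nsmul, Multiset.card_nsmul, card_quarters, card_halves, hc,
          hr]
        ring
      · rw [Multiset.sum_add, Multiset.sum_nsmul, Multiset.sum_nsmul, sum_halves]
        have h5 := sum_quarters hB
        obtain ⟨q, hq⟩ : ∃ q, q = (quarters B).sum := ⟨_, rfl⟩
        rw [← hq] at h5 ⊢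
        simp only [smul_eq_mul]
        have h6 : 2 * a * B = δ * (2 * B) + r * (2 * B) := by rw [hr]; ring
        rw [h6, ← h5] at hδ
        have h7 : δ * (q + 1) = δ * q + δ := by ring
        rw [h7] at hδ
        have h8 : r * (2 * B) = r * (q + 1) := by rw [h5]
        rw [h8]
        omega
    have hv : ∀ s t : ℕ, s + t = a → Good (s • {B} + (t • {B + 1} + e)) := by
      intro s t hst
      have h4 := H (s • {B} + t • {B + 1}) (by simp [hst]) (by
        intro y hy
        rcases Multiset.mem_add.1 hy with h | h
        · exact Or.inl (Multiset.mem_singleton.1 (mem_nsmul_of h))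
        · exact Or.inr (Multiset.mem_singleton.1 (mem_nsmul_of h)))
      rw [add_assoc] at h4
      exact h4
    rw [ex]
    rcases Nat.eq_zero_or_pos r with hr0 | hr0
    · subst hr0
      rw [zero_smul, add_zero]
      refine good_ones hB δ ?_
      have h4 := hv δ 0 (by omega)
      rw [zero_smul, zero_add] at h4
      exact h4
    · have g1 : Good (r • {B} + (δ • quarters B + e)) := by
        have h4 := hv a 0 (by omega)
        rw [zero_smul, zero_add, hr, add_smul] at h4
        have e1 : δ • ({B} : Multiset ℕ) + r • {B} + e = δ • {B} + (r • {B} + e) := by abel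
        rw [e1] at h4
        have h5 := good_ones hB δ h4
        have e2 : δ • quarters B + (r • ({B} : Multiset ℕ) + e) =
          r • {B} + (δ • quarters B + e) := by abel
        rw [e2] at h5
        exact h5
      have g2 : Good (r • {B + 1} + (δ • quarters B + e)) := by
        have h4 := hv δ r (by omega)
        have h5 := good_ones hB δ h4
        have e2 : δ • quarters B + (r • ({B + 1} : Multiset ℕ) + e) =
          r • {B + 1} + (δ • quarters B + e) := by abel
        rw [e2] at h5
        exact h5
      have h6 := Good.four hr0 hB g1 g2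
      have e3 : δ • quarters B + r • halves B + e = r • halves B + (δ • quarters B + e) := by abel
      rw [e3]
      exact h6

end Pool.Agent.W71.NN
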