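import Pool.Agent.TH641.NW.Plane
import Pool.Agent.TH641.NW.Inst

/-! Sorting the rows and spreading the top row, with an arbitrary slope `σ ≤ n'`. -/

namespace Pool.Agent.W71.NN

open Finset Pool.Agent.TH176.Nag Pool.Agent.TH603.Sur Pool.Agent.TH603.Cut Pool.Agent.TH641.NW

variable {ι : Type} {w : ι → ℕ}

/-- sorting rows and spreading the top row -/
theorem Emp_spread1 {S : Set (ℤ × ℤ)} {n' Z' : ℝ} {σ : ℕ} (hσ : (σ : ℝ) ≤ n') {J : ℕ}
    {ρ : ℕ → ℝ} (hpos : ∀ p ∈ S, 0 ≤ p.2)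
    (hcard : ∀ (j : ℕ) (B : Finset ℤ), (∀ c ∈ B, ((c, (j : ℤ)) : ℤ × ℤ) ∈ S) → (B.card : ℝ) ≤ ρ j)
    (h1 : ∀ j < J, ρ j ≤ Z' - (n' - σ) - n' * j) (h2 : ρ J + σ * J ≤ Z')
    (h3 : ∀ j, J < j → ρ j < 1) (h : Emp w (Cl Z' n')) : Emp w S := by
  classical
  -- spread
  have hA : Emp w {p : ℤ × ℤ | 0 ≤ p.2 ∧ 0 ≤ p.1 - σ * p.2 ∧
      ((p.1 : ℝ) - σ * p.2) + 1 + n' * p.2 ≤ Z'} := by
    refine h.comap 1 (-(σ : ℤ)) 0 1 0 0 (by norm_num) ?_
    rintro ⟨a, b⟩ ⟨g1, g2, g3⟩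
    simp only at g1 g2 g3
    refine ⟨by simp only; linarith, by simp only; linarith, ?_⟩
    simp only
    push_cast
    linarith
  have hB : Emp w {p : ℤ × ℤ | 0 ≤ p.2 ∧ 0 ≤ p.1 - σ * p.2 ∧
      ((p.1 : ℝ) - σ * p.2) + 1 ≤ ρ p.2.toNat} := by
    refine Emp_flat0 ?_ hA
    intro c B hBm k hk
    have hB2 : ∀ b ∈ B, ∃ j : ℕ, b = j ∧ (σ : ℝ) * j ≤ c ∧ (c : ℝ) + 1 ≤ ρ j + σ * j ∧ j ≤ J := by
      intro b hb
      obtain ⟨g1, g2, g3⟩ := hBm b hb
      simp only at g1 g2 g3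
      obtain ⟨j, rfl⟩ := Int.eq_ofNat_of_zero_le g1
      simp only [Int.toNat_natCast, Int.cast_natCast] at g2 g3
      have g2' : (σ : ℝ) * j ≤ c := by
        have : (σ : ℤ) * j ≤ c := by linarith
        exact_mod_cast this
      refine ⟨j, rfl, g2', by linarith, ?_⟩
      by_contra hcon
      have := h3 j (not_le.1 hcon)
      linarith
    -- the largest row
    have hne : B.Nonempty := card_pos.1 (by omega)
    obtain ⟨jm, hjm1, hjm2, hjm3, hjm4⟩ := hB2 _ (B.max'_mem hne)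
    have hsub : B ⊆ Finset.Icc (0 : ℤ) (jm : ℤ) := by
      intro b hb
      rw [Finset.mem_Icc]
      obtain ⟨j, hj, -⟩ := hB2 b hb
      exact ⟨by omega, hjm1 ▸ B.le_max' b hb⟩
    have hkjm : k ≤ jm := by
      have h5 := card_le_card hsub
      rw [Int.card_Icc] at h5
      omega
    have hkR : (k : ℝ) ≤ jm := by exact_mod_cast hkjm
    have hσ0 : (0 : ℝ) ≤ σ := Nat.cast_nonneg σ
    have hnσ : 0 ≤ n' - σ := by linarith
    refine ⟨by simp, ?_, ?_⟩
    · simp only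
      have h5 : (σ : ℝ) * k ≤ c := (mul_le_mul_of_nonneg_left hkR hσ0).trans hjm2
      have h6 : (σ : ℤ) * k ≤ c := by exact_mod_cast h5
      linarith
    · simp only [Int.cast_natCast]
      -- the bound for a row below the top
      have low : ∀ j : ℕ, j < J → (c : ℝ) + 1 ≤ ρ j + σ * j → (c : ℝ) + 1 ≤ Z' - (n' - σ) * (j + 1) := by
        intro j hj hc
        have := h1 j hj
        linarith
      rcases Nat.lt_or_ge jm J with hlt | hge
      · have h5 := low jm hlt hjm3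
        have h6 : (n' - σ) * k ≤ (n' - σ) * (jm + 1) := by
          apply mul_le_mul_of_nonneg_left _ hnσ
          linarith
        linarith
      · have hjJ : jm = J := le_antisymm hjm4 hge
        rcases Nat.eq_zero_or_pos k with hk0 | hk0
        · subst hk0
          rw [hjJ] at hjm3
          simp only [Nat.cast_zero, mul_zero]
          linarith
        · -- remove the top row
          have hcard2 : k ≤ (B.erase (J : ℤ)).card := by
            have := Finset.pred_card_le_card_erase (s := B) (a := (J : ℤ))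
            omega
          have hne2 : (B.erase (J : ℤ)).Nonempty := card_pos.1 (by omega)
          obtain ⟨j2, hj21, hj22, hj23, hj24⟩ := hB2 _ (Finset.mem_of_mem_erase ((B.erase (J : ℤ)).max'_mem hne2))
          have hj2J : j2 < J := by
            rcases Nat.lt_or_ge j2 J with h | h
            · exact h
            · exfalso
              have h7 : j2 = J := le_antisymm hj24 h
              have h8 := (B.erase (J : ℤ)).max'_mem hne2
              rw [hj21, h7] at h8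
              exact Finset.notMem_erase _ _ h8
          have hsub2 : B.erase (J : ℤ) ⊆ Finset.Icc (0 : ℤ) (j2 : ℤ) := by
            intro b hb
            rw [Finset.mem_Icc]
            obtain ⟨j, hj, -⟩ := hB2 b (Finset.mem_of_mem_erase hb)
            exact ⟨by omega, hj21 ▸ (B.erase (J : ℤ)).le_max' b hb⟩
          have hkj2 : k ≤ j2 + 1 := by
            have h5 := card_le_card hsub2
            rw [Int.card_Icc] at h5
            omega
          have hkR2 : (k : ℝ) ≤ j2 + 1 := by exact_mod_cast hkj2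
          have h5 := low j2 hj2J hj23
          have h6 : (n' - σ) * k ≤ (n' - σ) * (j2 + 1) := mul_le_mul_of_nonneg_left hkR2 hnσ
          linarith
  have hC : Emp w {p : ℤ × ℤ | 0 ≤ p.2 ∧ 0 ≤ p.1 ∧ (p.1 : ℝ) + 1 ≤ ρ p.2.toNat} := by
    refine hB.comap 1 (σ : ℤ) 0 1 0 0 (by norm_num) ?_
    rintro ⟨a, b⟩ ⟨g1, g2, g3⟩
    simp only at g1 g2 g3
    refine ⟨by simp only; linarith, by simp only; linarith, ?_⟩
    simp only
    have e : 0 * a + 1 * b + 0 = b := by ring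
    rw [e]
    push_cast
    linarith
  -- sort
  have hC' : Emp w {p : ℤ × ℤ | 0 ≤ p.1 ∧ 0 ≤ p.2 ∧ (p.2 : ℝ) + 1 ≤ ρ p.1.toNat} := by
    refine hC.comap 0 1 1 0 0 0 (by norm_num) ?_
    rintro ⟨a, b⟩ ⟨g1, g2, g3⟩
    simp only at g1 g2 g3
    refine ⟨by simp only; linarith, by simp only; linarith, ?_⟩
    simp only
    have e : 1 * a + 0 * b + 0 = a := by ring
    have e' : 0 * a + 1 * b + 0 = b := by ring
    rw [e, e']
    exact g3
  have hD : Emp w {p : ℤ × ℤ | ((p.2, p.1) : ℤ × ℤ) ∈ S} := by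
    refine Emp_flat0 ?_ hC'
    intro j B hBm k hk
    have hj : 0 ≤ j := by
      obtain ⟨b, hb⟩ := card_pos.1 (show 0 < B.card by omega)
      exact hpos _ (hBm b hb)
    obtain ⟨j', rfl⟩ := Int.eq_ofNat_of_zero_le hj
    have h5 := hcard j' B hBm
    have h6 : ((k + 1 : ℕ) : ℝ) ≤ B.card := by exact_mod_cast hk
    refine ⟨by simp, by simp, ?_⟩
    simp only [Int.toNat_natCast, Int.cast_natCast]
    push_cast at h6
    linarith
  refine hD.comap 0 1 1 0 0 0 (by norm_num) ?_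
  rintro ⟨a, b⟩ hab
  simpa using hab


/-- emptiness: flatten, sort, spread the top row -/
theorem Emp_T1 {α K D : ℝ} (v : ℤ) (hK : 0 ≤ K) {n' Z' : ℝ} {σ : ℕ}
    (hσ : (σ : ℝ) ≤ n') {J : ℕ} {ρ : ℕ → ℝ}
    (hcard : ∀ (j : ℕ) (B : Finset ℤ), (∀ c ∈ B, c ∈ U (α + K * j) (D - K * j) K) → (B.card : ℝ) ≤ ρ j)
    (h1 : ∀ j < J, ρ j ≤ Z' - (n' - σ) - n' * j) (h2 : ρ J + σ * J ≤ Z')
    (h3 : ∀ j, J < j → ρ j < 1) (h : Emp w (Cl Z' n')) :
    Emp w (Reg α (α + D) (K - v) (9 - (K - v))) := by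
  refine Emp_flat (S' := {p : ℤ × ℤ | 0 ≤ p.2 ∧ p.1 ∈ U (α + K * (p.2 : ℝ)) (D - K * (p.2 : ℝ)) K})
    1 v 1 0 (by ring) ?_ ?_
  · rintro ⟨a, b⟩ T k ⟨g1, g2, g3⟩ ⟨g4, g5, g6⟩ hk
    simp only at g1 g2 g3 g4 g5 g6
    obtain ⟨s, rfl⟩ := Int.eq_ofNat_of_zero_le g1
    refine ⟨by simp, s, ?_, ?_⟩
    · push_cast at g2 g3 g5 g6 ⊢
      have hkR : (k : ℝ) ≤ T := by exact_mod_cast hk
      have h7 : K * k ≤ K * T := mul_le_mul_of_nonneg_left hkR hK
      linarith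
    · push_cast at g2 g3 g5 g6 ⊢
      linarith
  · refine Emp_spread1 hσ (J := J) (ρ := ρ) (fun p hp => hp.1) ?_ h1 h2 h3 h
    intro j B hB
    refine hcard j B fun c hc => ?_
    have := (hB c hc).2
    simpa using this

theorem Emp_pl1 {K : ℝ} {d : ℕ} (hK : 0 ≤ K) {n' Z' : ℝ} {σ : ℕ}
    (hσ : (σ : ℝ) ≤ n') {J : ℕ} {ρ : ℕ → ℝ}
    (hcard : ∀ (x : ℝ) (j : ℕ) (B : Finset ℤ), (∀ c ∈ B, c ∈ U x (3 * d - K * j) K) → (B.card : ℝ) ≤ ρ j)
    (h1 : ∀ j < J, ρ j ≤ Z' - (n' - σ) - n' * j) (h2 : ρ J + σ * J ≤ Z')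
    (h3 : ∀ j, J < j → ρ j < 1) (h : Emp w (Cl Z' n')) : Emp w (TZ d) := by
  obtain ⟨v, τ, α, h4, h5, -, h6⟩ := exists_tau K d
  refine keyE ι w d τ h4 h5 ?_
  rw [h6]
  exact Emp_T1 v hK hσ (fun j B hB => hcard _ j B hB) h1 h2 h3 h

end Pool.Agent.W71.NN
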