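import Pool.Agent.W71.NN.Scales
import Pool.Agent.TH105.N13.All

/-! Substitution of a point by a cluster of points: the class of the non-special systems is closed under
the substitution of clusters. -/

set_option autoImplicit false

namespace Pool.Agent.W71.NN

open Finset Pool.Agent.TH176.Nag Pool.Agent.TH603.Sur Pool.Agent.TH641.UM Pool.Agent.TH2.NU
open Pool.Agent.TH545.SD

theorem co_add (u v : Multiset ℕ) : co (u + v) = co u + co v := condM_add u v

theorem co_cons (a : ℕ) (v : Multiset ℕ) : co (a ::ₘ v) = (a + 1).choose 2 + co v := by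
  unfold co
  rw [Multiset.map_cons, Multiset.sum_cons]

theorem co_zero : co 0 = 0 := rfl

theorem co_ms {ι : Type} [Fintype ι] (w : ι → ℕ) : co (ms w) = cond w := (cond_condM w).symm

theorem co_ones (p : ℕ) : co (p • {1}) = p := by
  rw [← ms_fin, co_ms]
  unfold Pool.Agent.TH603.Sur.cond
  simp

/-- the expected dimension by emptiness with further simple points -/
theorem GD_iff {d : ℕ} {v : Multiset ℕ} :
    GD d v ↔ ∀ p, (d + 2).choose 2 ≤ co v + p → EmpM (v + p • {1}) (TZ d) := by
  constructor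
  · intro h p hp
    obtain ⟨s, u, rfl⟩ := Pool.Agent.TH545.SD.exists_fam v
    obtain ⟨h1, h2⟩ := h u rfl
    rw [co_ms] at hp
    rcases le_total ((d + 2).choose 2) (cond u) with hd | hd
    · have h3 := (EmpM_ms u (TZ d)).2 (h1 hd)
      exact h3.mono (Multiset.le_add_right _ _)
    · have h3 := Emp_ones (p := p) (h2 hd) hp
      exact (EmpM_iff (by rw [ms_sum, ms_fin]) _).2 h3
  · intro h ι _ w hw
    subst hw
    refine ⟨fun hd => ?_, fun hd => ?_⟩
    · have h3 := h 0 (by rw [co_ms]; exact hd)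
      rw [zero_smul, add_zero] at h3
      exact (EmpM_ms w (TZ d)).1 h3
    · obtain ⟨p, hp⟩ := Nat.exists_eq_add_of_le hd
      have h3 := h p (by rw [co_ms, hp])
      have h4 := (EmpM_iff (w := Sum.elim w (fun _ : Fin p => 1)) (by rw [ms_sum, ms_fin]) _).1 h3
      exact Sur_of_ones h4 hp.ge

/-- the system of degree `d` with the multiplicities `v` has the expected dimension -/
structure Ns (d : ℕ) (v : Multiset ℕ) : Prop where
  out : GD d v

theorem Ns_iff {d : ℕ} {v : Multiset ℕ} :
    Ns d v ↔ ∀ p, (d + 2).choose 2 ≤ co v + p → EmpM (v + p • {1}) (TZ d) := by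
  rw [← GD_iff]
  exact ⟨fun h => h.out, fun h => ⟨h⟩⟩

/-- **Substitution of a cluster**: a point of multiplicity `b` or `b + 1` may be replaced by a cluster
whose number of conditions is between those of `b` and `b + 1`, if the cluster has the expected
dimension in the degrees `b - 1` and `b`. -/
theorem Ns.subst {d b : ℕ} {C e : Multiset ℕ} (hb : 1 ≤ b) (hC0 : Ns (b - 1) C) (hC1 : Ns b C)
    (h1 : (b + 1).choose 2 ≤ co C) (h2 : co C ≤ (b + 2).choose 2) (g1 : Ns d (b ::ₘ e))
    (g2 : Ns d ((b + 1) ::ₘ e)) : Ns d (C + e) := by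
  rw [Ns_iff] at *
  intro p hp
  obtain ⟨q, hq⟩ := Nat.exists_eq_add_of_le h1
  obtain ⟨p', hp'⟩ := Nat.exists_eq_add_of_le h2
  have e1 : b - 1 + 2 = b + 1 := by omega
  have e2 : (b + 2).choose 2 = (b + 1).choose 2 + (b + 1) := by
    rw [Nat.choose_succ_succ' (b + 1) 1, Nat.choose_one_right]
    ring
  rw [co_add] at hp
  have k1 := hC1 p' hp'.le
  have k2 := hC0 0 (by rw [e1]; exact h1)
  rw [zero_smul, add_zero] at k2
  have k3 := g1 (p + q) (by rw [co_cons]; omega)
  have e3 : (b + 1 + 1).choose 2 = (b + 2).choose 2 := rfl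
  have k4 := g2 p (by rw [co_cons, e3]; omega)
  have key := match_M Pool.Agent.TH105.N13.matchE (M1 := C) (M2 := e + p • {1}) (D := b) (d := d)
    (p := p') (q := q) hb (by omega) k1 k2 (k3.mono (le_of_eq (by
      rw [add_smul, ← Multiset.singleton_add]
      abel))) (k4.mono (le_of_eq (by
      rw [← Multiset.singleton_add]
      abel)))
  rw [add_assoc]
  exact key

/-- **Substitution of an exact cluster**. -/
theorem Ns.exact {d b : ℕ} {C e : Multiset ℕ} (hb : 1 ≤ b) (hC : Ns (b - 1) C)
    (h1 : co C = (b + 1).choose 2) (g : Ns d (b ::ₘ e)) : Ns d (C + e) := by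
  have e1 : b - 1 + 2 = b + 1 := by omega
  have e2 : (b + 2).choose 2 = (b + 1).choose 2 + (b + 1) := by
    rw [Nat.choose_succ_succ' (b + 1) 1, Nat.choose_one_right]
    ring
  have hC1 : Ns b C := ⟨GD.above (d := b) (d' := b - 1) (by omega) (by rw [e1, h1]) hC.out⟩
  rw [Ns_iff] at *
  intro p hp
  rw [co_add] at hp
  have k1 := hC1 (b + 1) (by rw [h1, e2])
  have k2 := hC 0 (by rw [e1, h1]; exact le_refl _)
  rw [zero_smul, add_zero] at k2
  have k3 := g p (by rw [co_cons, ← h1]; exact hp)
  have k4 : EmpM ({b + 1} + (e + p • {1})) (TZ d) := by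
    have k5 : EmpM (1 • {b} + (e + p • {1})) (TZ d) := k3.mono (le_of_eq (by
      rw [← Multiset.singleton_add, one_smul]
      abel))
    have k6 := EmpM.raise (b' := b + 1) (by omega) k5
    rw [one_smul] at k6
    exact k6
  have key := match_M Pool.Agent.TH105.N13.matchE (M1 := C) (M2 := e + p • {1}) (D := b) (d := d)
    (p := b + 1) (q := 0) hb (by omega) k1 k2 (k3.mono (le_of_eq (by
      rw [zero_smul, ← Multiset.singleton_add]
      abel))) k4
  rw [add_assoc]
  exact key

/-- a further simple point -/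
theorem Ns.simple {d : ℕ} {v : Multiset ℕ} (h : Ns d v) (s : ℕ) : Ns d (v + s • {1}) := by
  rw [Ns_iff] at *
  intro p hp
  rw [co_add, co_ones] at hp
  have h1 := h (s + p) (by omega)
  exact h1.mono (le_of_eq (by rw [add_smul]; abel))

/-- points of multiplicity `0` impose no condition -/
theorem Emp_drop {κ : Type} {w : κ → ℕ} {S : Set (ℤ × ℤ)} {ι : Type} (f : ι → κ)
    (hf : ∀ k, w k ≠ 0 → ∃ i, f i = k) (h : Emp w S) : Emp (fun i => w (f i)) S := by
  obtain ⟨K, _, _, x, y, hx, hy, H⟩ := h
  refine ⟨K, inferInstance, inferInstance, fun i => x (f i), fun i => y (f i), fun i => hx _,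
    fun i => hy _, fun F hF hL => H F hF fun k => ?_⟩
  rcases eq_or_ne (w k) 0 with hk | hk
  · rw [hk]
    intro p hp
    have h0 : PF K 0 = ⊥ := by
      unfold PF
      rw [Submodule.span_eq_bot]
      rintro P ⟨a, b, hab, _⟩
      exact absurd hab (Nat.not_lt_zero _)
    rw [h0, Submodule.mem_bot] at hp
    subst hp
    unfold pr
    simp
  · obtain ⟨i, rfl⟩ := hf k hk
    exact hL i

end Pool.Agent.W71.NN
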